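import Pool.Agent.Helper59.KS.Defs

set_option autoImplicit false

open Finset

namespace Pool.Agent.Helper59.KS

/-- BLOCK S2A : strands, from Edmonds' theorem as a hypothesis -/
theorem strands_of_edmonds
    (edm : ∀ {V A J : Type} [Fintype V] [DecidableEq V] [Fintype A] [Fintype J] [Nonempty J]
      [DecidableEq J] (src dst : A → V) (R : J → Finset V)
      (_ : ∀ X : Finset V, X.Nonempty →
        (univ.filter fun j : J => Disjoint (R j) X).card ≤
          (univ.filter fun a : A => src a ∉ X ∧ dst a ∈ X).card),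
      ∃ c : A → J, ∀ (j : J) (X : Finset V), X.Nonempty → Disjoint (R j) X →
        ∃ a, c a = j ∧ src a ∉ X ∧ dst a ∈ X)
    {V : Type} [Fintype V] [DecidableEq V] (T : V → V → Prop) (b : ℕ) (hb : 1 ≤ b)
    (X Z : Finset V) (hXZ : X ⊆ Z) (hX0 : X.Nonempty) (hZ0 : Z ≠ univ)
    (hX : (arcs T Xᶜ X).card = b) (hZ : (arcs T Zᶜ Z).card = b)
    (hmin : ∀ W : Finset V, X ⊆ W → W ⊆ Z → b ≤ (arcs T Wᶜ W).card) :
    ∃ s : V → V → Fin b,
      (∀ (i : Fin b) (W : Finset V), X ⊆ W → W ⊆ Z → ∃ u v, u ∉ W ∧ v ∈ W ∧ T u v ∧ s u v = i) ∧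
      (∀ p ∈ arcs T Xᶜ X, ∀ p' ∈ arcs T Xᶜ X, s p.1 p.2 = s p'.1 p'.2 → p = p') ∧
      (∀ p ∈ arcs T Zᶜ Z, ∀ p' ∈ arcs T Zᶜ Z, s p.1 p.2 = s p'.1 p'.2 → p = p') := by
  classical
  obtain ⟨x0, hx0⟩ := hX0
  obtain ⟨y0, hy0⟩ : ∃ y, y ∉ Z := by
    by_contra hcon
    push Not at hcon
    exact hZ0 (Finset.eq_univ_of_forall hcon)
  have : Nonempty (Fin b) := ⟨⟨0, by omega⟩⟩
  let π : V → V := fun v => if v ∈ X then x0 else if v ∈ Z then v else y0
  have hπX : ∀ v ∈ X, π v = x0 := fun v hv => by simp [π, hv]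
  have hπZ : ∀ v, v ∉ Z → π v = y0 := fun v hv => by
    have : v ∉ X := fun h => hv (hXZ h)
    simp [π, hv, this]
  have hπM : ∀ v, v ∉ X → v ∈ Z → π v = v := fun v hv hv' => by simp [π, hv, hv']
  -- invariance for sets between X and Z
  have hπW : ∀ W : Finset V, X ⊆ W → W ⊆ Z → ∀ v, π v ∈ W ↔ v ∈ W := by
    intro W hXW hWZ v
    by_cases h1 : v ∈ X
    · rw [hπX v h1]
      exact ⟨fun _ => hXW h1, fun _ => hXW hx0⟩
    · by_cases h2 : v ∈ Z
      · rw [hπM v h1 h2]
      · rw [hπZ v h2]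
        exact ⟨fun h => absurd (hWZ h) hy0, fun h => absurd (hWZ h) h2⟩
  let src : (↥(arcs T Xᶜ Z) ⊕ (V × Fin b)) → V := fun a => match a with
    | Sum.inl p => π p.1.1
    | Sum.inr _ => x0
  let dst : (↥(arcs T Xᶜ Z) ⊕ (V × Fin b)) → V := fun a => match a with
    | Sum.inl p => π p.1.2
    | Sum.inr q => q.1
  obtain ⟨c, hc⟩ := edm src dst (fun _ : Fin b => {y0}) (by
    intro W' hW'
    by_cases hy : y0 ∈ W'
    · rw [Finset.filter_false_of_mem]
      · simp
      · intro j _ hd
        exact (Finset.disjoint_singleton_left.mp hd) hy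
    · have h1 : (univ.filter fun _ : Fin b => Disjoint ({y0} : Finset V) W').card ≤ b :=
        le_trans (Finset.card_filter_le _ _) (by simp)
      refine h1.trans ?_
      by_cases hx : x0 ∈ W'
      · let W : Finset V := univ.filter fun v => π v ∈ W'
        have hXW : X ⊆ W := fun v hv => by simp [W, hπX v hv, hx]
        have hWZ : W ⊆ Z := fun v hv => by
          by_contra h
          have : π v ∈ W' := by simpa [W] using hv
          rw [hπZ v h] at this
          exact hy this
        refine (hmin W hXW hWZ).trans ?_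
        refine Finset.card_le_card_of_injOn
          (fun p => if h : p ∈ arcs T Xᶜ Z then Sum.inl ⟨p, h⟩ else Sum.inr (x0, ⟨0, by omega⟩))
          ?_ ?_
        · intro p hp
          have hp' := mem_arcs.mp hp
          have hpm : p ∈ arcs T Xᶜ Z := mem_arcs.mpr
            ⟨by
              rw [Finset.mem_compl]
              exact fun h => (Finset.mem_compl.mp hp'.1) (hXW h), hWZ hp'.2.1, hp'.2.2⟩
          have e1 : π p.1 ∉ W' := by
            have := Finset.mem_compl.mp hp'.1
            simpa [W] using this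
          have e2 : π p.2 ∈ W' := by
            have := hp'.2.1
            simpa [W] using this
          simp only [hpm, dif_pos, Finset.coe_filter, Finset.mem_univ, true_and,
            Set.mem_ofPred_eq]
          exact ⟨e1, e2⟩
        · intro p hp q hq hpq
          have hp' := mem_arcs.mp hp
          have hq' := mem_arcs.mp hq
          have hpm : p ∈ arcs T Xᶜ Z := mem_arcs.mpr
            ⟨by
              rw [Finset.mem_compl]
              exact fun h => (Finset.mem_compl.mp hp'.1) (hXW h), hWZ hp'.2.1, hp'.2.2⟩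
          have hqm : q ∈ arcs T Xᶜ Z := mem_arcs.mpr
            ⟨by
              rw [Finset.mem_compl]
              exact fun h => (Finset.mem_compl.mp hq'.1) (hXW h), hWZ hq'.2.1, hq'.2.2⟩
          simp only [hpm, hqm, dif_pos, Sum.inl.injEq, Subtype.mk.injEq] at hpq
          exact hpq
      · obtain ⟨v, hv⟩ := hW'
        calc b = (univ : Finset (Fin b)).card := by simp
          _ ≤ _ := by
            refine Finset.card_le_card_of_injOn (fun i => Sum.inr (v, i)) ?_ ?_
            · intro i _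
              simp only [Finset.coe_filter, Finset.mem_univ, true_and, Set.mem_ofPred_eq]
              exact ⟨hx, hv⟩
            · intro i _ j _ hij
              simpa using hij)
  let s : V → V → Fin b := fun u v =>
    if h : (u, v) ∈ arcs T Xᶜ Z then c (Sum.inl ⟨(u, v), h⟩) else ⟨0, by omega⟩
  have hs1 : ∀ (i : Fin b) (W : Finset V), X ⊆ W → W ⊆ Z →
      ∃ u v, u ∉ W ∧ v ∈ W ∧ T u v ∧ s u v = i := by
    intro i W hXW hWZ
    obtain ⟨a, hca, hsa, hda⟩ := hc i W ⟨x0, hXW hx0⟩
      (Finset.disjoint_singleton_left.mpr fun h => hy0 (hWZ h))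
    rcases a with p | q
    · have hp := mem_arcs.mp p.2
      refine ⟨p.1.1, p.1.2, ?_, ?_, hp.2.2, ?_⟩
      · exact fun h => hsa ((hπW W hXW hWZ _).mpr h)
      · exact (hπW W hXW hWZ _).mp hda
      · have hpm : (p.1.1, p.1.2) ∈ arcs T Xᶜ Z := p.2
        simp only [s, hpm, dif_pos]
        exact hca
    · exact absurd (hXW hx0) hsa
  have hinj : ∀ W : Finset V, X ⊆ W → W ⊆ Z → (arcs T Wᶜ W).card = b →
      ∀ p ∈ arcs T Wᶜ W, ∀ p' ∈ arcs T Wᶜ W, s p.1 p.2 = s p'.1 p'.2 → p = p' := by
    intro W hXW hWZ hcard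
    have himg : (arcs T Wᶜ W).image (fun p => s p.1 p.2) = univ := by
      apply Finset.eq_univ_of_forall
      intro i
      obtain ⟨u, v, hu, hv, hT, hi⟩ := hs1 i W hXW hWZ
      exact Finset.mem_image.mpr ⟨(u, v), mem_arcs.mpr ⟨Finset.mem_compl.mpr hu, hv, hT⟩, hi⟩
    have hc2 : ((arcs T Wᶜ W).image (fun p => s p.1 p.2)).card = (arcs T Wᶜ W).card := by
      rw [himg, hcard]
      simp
    have hInj := Finset.card_image_iff.mp hc2
    intro p hp p' hp' h
    exact hInj hp hp' h
  exact ⟨s, hs1, hinj X (Finset.Subset.refl X) hXZ hX, hinj Z hXZ (Finset.Subset.refl Z) hZ⟩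

end Pool.Agent.Helper59.KS
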